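import Mathlib
import Pool.Agent.H58.SS.Core

/-!
# Supersaturation for clique counts in graphs with a fixed number of edges, every forbidden graph

For every finite graph `F` with at least two edges and every `s ≥ 3`: a graph with `m` edges which has
`ε m^{s/2}` copies of `K_s` more than the maximum over all `F`-free graphs with `m` edges contains
`δ m^{|V(F)|/2}` copies of `F`. For `F = K_{r+1}`, `r ≥ s`, this is the question.

Sketch of the proof. Vertices of degree at most `η √m` are contained in few copies of `K_s`; there are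
`n = Θ(√m)` other vertices, so the rest `G'` is a dense graph on `n` vertices. If `G` has few copies of
`F`, then `G'` has few homomorphisms from `F`, and by repeated use of the Cauchy-Schwarz inequality few
homomorphisms from every homomorphic image of `F`. So some sample of `M` vertices of `G'`, `M` bounded,
admits no homomorphism from `F` at all, has at most the expected density of edges and at least the
expected density of `s`-cliques. Its blow-up admits no homomorphism from `F` either, has at most `m`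
edges and nearly as many copies of `K_s` as `G`; with a star added it is an `F`-free graph with exactly
`m` edges.
-/

set_option autoImplicit false

namespace Pool.Agent.Results.MP_79ff05_co.EveryForbiddenGraph

open Finset Pool.Agent.H58.SS

universe u

/-- the copies of the complete graph are determined by their vertex sets -/
lemma copies_top_le {V : Type u} [Finite V] (G : SimpleGraph V) (t : ℕ) :
    copies (⊤ : SimpleGraph (Fin t)) G ≤ (G.cliqueSet t).ncard := by
  classical
  have : Fintype V := Fintype.ofFinite V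
  unfold copies
  have hadj : ∀ H : G.Subgraph, Nonempty ((⊤ : SimpleGraph (Fin t)) ≃g H.coe) →
      ∀ a b : V, a ∈ H.verts → b ∈ H.verts → a ≠ b → H.Adj a b := by
    rintro H ⟨e⟩ a b ha hb hab
    have h1 : (⊤ : SimpleGraph (Fin t)).Adj (e.symm ⟨a, ha⟩) (e.symm ⟨b, hb⟩) := by
      rw [SimpleGraph.top_adj]
      intro h
      exact hab (congrArg Subtype.val (e.symm.injective h))
    exact e.symm.map_adj_iff.1 h1
  refine Set.ncard_le_ncard_of_injOn (fun H : G.Subgraph => univ.filter fun v => v ∈ H.verts)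
    ?_ ?_ (Set.toFinite _)
  · rintro H hH
    rw [SimpleGraph.mem_cliqueSet_iff, SimpleGraph.isNClique_iff]
    constructor
    · intro a ha b hb hab
      exact (hadj H hH a b (by simpa using ha) (by simpa using hb) hab).adj_sub
    · obtain ⟨e⟩ := hH
      have h1 := Fintype.card_congr e.toEquiv
      rw [Fintype.card_fin] at h1
      rw [h1, Fintype.card_subtype]
  · intro H hH H' hH' h
    have hv : H.verts = H'.verts := by
      ext v
      have := Finset.ext_iff.1 h v
      simpa using this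
    refine SimpleGraph.Subgraph.ext hv ?_
    funext a b
    refine propext ⟨fun hab => ?_, fun hab => ?_⟩
    · exact hadj H' hH' a b (hv ▸ hab.fst_mem) (hv ▸ hab.snd_mem) hab.adj_sub.ne
    · exact hadj H hH a b (hv ▸ hab.fst_mem) (hv ▸ hab.snd_mem) hab.adj_sub.ne

/-- **Supersaturation for clique counts in graphs with a fixed number of edges.**
First part, the question: for all `r ≥ s ≥ 3` and `ε > 0` there are `δ > 0` and `m₀` such that for
every `m ≥ m₀` the maximum `M` of the number of copies of `K_s` over all `K_{r+1}`-free graphs with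
exactly `m` edges exists, and every finite graph with exactly `m` edges and at least `M + ε m^{s/2}`
copies of `K_s` contains at least `δ m^{(r+1)/2}` copies of `K_{r+1}`.
Second part: the same for every finite graph `F` with at least two edges in the place of `K_{r+1}` (and
every `s ≥ 3`), with at least `δ m^{k/2}` copies of `F` (subgraphs isomorphic to `F`), `k = |V(F)|`. -/
theorem result :
    (∀ r s : ℕ, 3 ≤ s → s ≤ r → ∀ ε : ℝ, 0 < ε →
      ∃ δ : ℝ, 0 < δ ∧ ∃ m₀ : ℕ, ∀ m : ℕ, m₀ ≤ m →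
        ∃ M : ℕ, IsGreatest {x : ℕ | ∃ (n : ℕ) (H : SimpleGraph (Fin n)),
            H.edgeSet.ncard = m ∧ H.CliqueFree (r + 1) ∧ (H.cliqueSet s).ncard = x} M ∧
          ∀ (V : Type u) [Finite V] (G : SimpleGraph V), G.edgeSet.ncard = m →
            (M : ℝ) + ε * (m : ℝ) ^ ((s : ℝ) / 2) ≤ ((G.cliqueSet s).ncard : ℝ) →
            δ * (m : ℝ) ^ (((r : ℝ) + 1) / 2) ≤ ((G.cliqueSet (r + 1)).ncard : ℝ)) ∧
    ∀ (k : ℕ) (F : SimpleGraph (Fin k)), 2 ≤ F.edgeSet.ncard →
      ∀ s : ℕ, 3 ≤ s → ∀ ε : ℝ, 0 < ε →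
        ∃ δ : ℝ, 0 < δ ∧ ∃ m₀ : ℕ, ∀ m : ℕ, m₀ ≤ m →
          ∃ M : ℕ, IsGreatest {x : ℕ | ∃ (n : ℕ) (H : SimpleGraph (Fin n)),
              H.edgeSet.ncard = m ∧ F.Free H ∧ (H.cliqueSet s).ncard = x} M ∧
            ∀ (V : Type u) [Finite V] (G : SimpleGraph V), G.edgeSet.ncard = m →
              (M : ℝ) + ε * (m : ℝ) ^ ((s : ℝ) / 2) ≤ ((G.cliqueSet s).ncard : ℝ) →
              δ * (m : ℝ) ^ ((k : ℝ) / 2) ≤
                ({H : G.Subgraph | Nonempty (F ≃g H.coe)}.ncard : ℝ) := by
  classical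
  have main : ∀ (k : ℕ) (F : SimpleGraph (Fin k)), 2 ≤ F.edgeSet.ncard →
      ∀ s : ℕ, 3 ≤ s → ∀ ε : ℝ, 0 < ε →
        ∃ δ : ℝ, 0 < δ ∧ ∃ m₀ : ℕ, ∀ m : ℕ, m₀ ≤ m →
          ∃ M : ℕ, IsGreatest {x : ℕ | ∃ (n : ℕ) (H : SimpleGraph (Fin n)),
              H.edgeSet.ncard = m ∧ F.Free H ∧ (H.cliqueSet s).ncard = x} M ∧
            ∀ (V : Type u) [Finite V] (G : SimpleGraph V), G.edgeSet.ncard = m →
              (M : ℝ) + ε * (m : ℝ) ^ ((s : ℝ) / 2) ≤ ((G.cliqueSet s).ncard : ℝ) →
              δ * (m : ℝ) ^ ((k : ℝ) / 2) ≤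
                ({H : G.Subgraph | Nonempty (F ≃g H.coe)}.ncard : ℝ) := by
    intro k F hF s hs ε hε
    obtain ⟨δ, hδ, m₀, H⟩ := core.{u} F hF s hs ε hε
    refine ⟨δ, hδ, m₀, fun m hm => ?_⟩
    set A : Set ℕ := {x : ℕ | ∃ (n : ℕ) (H : SimpleGraph (Fin n)),
            H.edgeSet.ncard = m ∧ F.Free H ∧ (H.cliqueSet s).ncard = x} with hA
    have hne : A.Nonempty := by
      obtain ⟨n, K, h1, h2⟩ := exists_free F hF m
      exact ⟨_, n, K, h1, h2, rfl⟩
    have hbdd : BddAbove A := by
      refine ⟨(2 * m) ^ s, ?_⟩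
      rintro x ⟨n, K, h1, _, rfl⟩
      exact cliques_bdd s m (by omega) n K h1
    refine ⟨sSup A, ⟨Nat.sSup_mem hne hbdd, fun x hx => le_csSup hbdd hx⟩, ?_⟩
    intro V _ G hG hk
    have : Fintype V := Fintype.ofFinite V
    have e1 : (m : ℝ) ^ ((s : ℝ) / 2) = (Real.sqrt m) ^ s := by
      rw [Real.rpow_div_two_eq_sqrt _ (Nat.cast_nonneg _), Real.rpow_natCast]
    have e2 : (m : ℝ) ^ ((k : ℝ) / 2) = (Real.sqrt m) ^ k := by
      rw [Real.rpow_div_two_eq_sqrt _ (Nat.cast_nonneg _), Real.rpow_natCast]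
    rw [e2]
    rw [e1] at hk
    have h0 := H m hm V G (by rw [oc_two, hG]) (sSup A) (fun n K h1 h2 =>
      le_csSup hbdd ⟨n, K, h1, h2, rfl⟩) hk
    rw [Fintype.card_fin] at h0
    exact h0
  refine ⟨fun r s hs hsr ε hε => ?_, main⟩
  have htop : 2 ≤ (⊤ : SimpleGraph (Fin (r + 1))).edgeSet.ncard := by
    have h1 : (⊤ : SimpleGraph (Fin (r + 1))).edgeSet.ncard = (r + 1).choose 2 := by
      rw [← SimpleGraph.coe_edgeFinset, Set.ncard_coe_finset,
        SimpleGraph.card_edgeFinset_top_eq_card_choose_two, Fintype.card_fin]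
    have h2 : Nat.choose 4 2 ≤ (r + 1).choose 2 := Nat.choose_le_choose 2 (by omega)
    have h3 : Nat.choose 4 2 = 6 := rfl
    omega
  obtain ⟨δ, hδ, m₀, H⟩ := main (r + 1) ⊤ htop s hs ε hε
  refine ⟨δ, hδ, m₀, fun m hm => ?_⟩
  obtain ⟨M, hM, hG⟩ := H m hm
  refine ⟨M, ?_, fun V _ G hm' hk => ?_⟩
  · have hfree : ∀ (n : ℕ) (K : SimpleGraph (Fin n)), K.CliqueFree (r + 1) ↔
        (⊤ : SimpleGraph (Fin (r + 1))).Free K := fun n K => by
      rw [← SimpleGraph.cliqueFree_iff_top_free, Fintype.card_fin]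
    simp_rw [hfree]
    exact hM
  · have h1 := hG V G hm' hk
    have h2 : ((r + 1 : ℕ) : ℝ) = (r : ℝ) + 1 := by push_cast; ring
    rw [h2] at h1
    refine h1.trans ?_
    exact_mod_cast copies_top_le G (r + 1)

end Pool.Agent.Results.MP_79ff05_co.EveryForbiddenGraph
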